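import Mathlib

set_option autoImplicit false

namespace Pool.Agent.H96Z.AD

open Finset Classical

variable {V : Type*}

/-- number of ordered adjacent pairs inside `U` -/
noncomputable def E (G : SimpleGraph V) (U : Finset V) : ℕ :=
  ((U ×ˢ U).filter (fun p => G.Adj p.1 p.2)).card

/-- spanning subgraph with the edges inside `U` -/
def res (G : SimpleGraph V) (U : Finset V) : SimpleGraph V where
  Adj x y := G.Adj x y ∧ x ∈ U ∧ y ∈ U
  symm := ⟨fun _ _ h => ⟨h.1.symm, h.2.2, h.2.1⟩⟩
  loopless := ⟨fun _ h => G.irrefl h.1⟩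

/-- colouring property at scale `r` with bound `D` -/
def Col (G : SimpleGraph V) (d r D : ℕ) : Prop :=
  ∃ c : V → Fin (d + 1), ∀ u v : V,
    Relation.ReflTransGen (fun a b => c a = c b ∧ G.edist a b ≤ (r : ℕ∞)) u v →
      G.edist u v ≤ (D : ℕ∞)

lemma nonempty_of_E {G : SimpleGraph V} {U : Finset V} (h : 0 < E G U) : U.Nonempty := by
  obtain ⟨p, hp⟩ := Finset.card_pos.1 h
  exact ⟨p.1, (Finset.mem_product.1 (Finset.mem_filter.1 hp).1).1⟩

theorem local_dense [Fintype V] (G : SimpleGraph V) (U : Finset V) {d D K : ℕ}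
    (hc : Col (res G U) d 2 D) (h : (d + 1) * K * U.card < E G U) :
    ∃ U' ⊆ U, K * U'.card < E G U' ∧
      ∀ x ∈ U', ∀ y ∈ U', (res G U).edist x y ≤ ((D + 2 : ℕ) : ℕ∞) := by
  obtain ⟨c, hc⟩ := hc
  set H := res G U with hH
  let rel : V → V → Prop := fun a b => c a = c b ∧ H.edist a b ≤ ((2 : ℕ) : ℕ∞)
  have hsymm : ∀ a b, Relation.ReflTransGen rel a b → Relation.ReflTransGen rel b a := by
    intro a b hab
    induction hab with
    | refl => exact Relation.ReflTransGen.refl
    | tail _ h2 ih =>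
      exact Relation.ReflTransGen.head ⟨h2.1.symm, by rw [H.edist_comm]; exact h2.2⟩ ih
  have hcol : ∀ a b, Relation.ReflTransGen rel a b → c a = c b := by
    intro a b hab
    induction hab with
    | refl => rfl
    | tail _ h2 ih => exact ih.trans h2.1
  let N : V → Finset V := fun w =>
    U.filter (fun x => ∃ y, Relation.ReflTransGen rel w y ∧ H.edist y x ≤ 1)
  have hN : ∀ w w', Relation.ReflTransGen rel w w' → N w = N w' := by
    intro w w' hw
    ext x
    simp only [N, Finset.mem_filter]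
    constructor
    · rintro ⟨h1, y, h2, h3⟩
      exact ⟨h1, y, (hsymm _ _ hw).trans h2, h3⟩
    · rintro ⟨h1, y, h2, h3⟩
      exact ⟨h1, y, hw.trans h2, h3⟩
  let F : Finset (Finset V) := Finset.univ.image N
  have hrep : ∀ b ∈ F, ∃ w, N w = b := by
    intro b hb
    obtain ⟨w, _, hw⟩ := Finset.mem_image.1 hb
    exact ⟨w, hw⟩
  have h1 : ∑ b ∈ F, (U ∩ b).card ≤ U.card * (d + 1) := by
    apply Finset.sum_card_inter_le
    intro x _
    have : Nonempty V := ⟨x⟩
    choose! g hg using hrep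
    have : (F.filter (fun b => x ∈ b)).card ≤ (Finset.univ : Finset (Fin (d + 1))).card := by
      apply Finset.card_le_card_of_injOn (fun b => c (g b)) (fun _ _ => by simp)
      intro b hb b' hb' hbb
      rw [Finset.mem_coe, Finset.mem_filter] at hb hb'
      have e1 := hg b hb.1
      have e2 := hg b' hb'.1
      have m1 : x ∈ N (g b) := e1.symm ▸ hb.2
      have m2 : x ∈ N (g b') := e2.symm ▸ hb'.2
      obtain ⟨_, y, hy, hyx⟩ := Finset.mem_filter.1 m1
      obtain ⟨_, y', hy', hyx'⟩ := Finset.mem_filter.1 m2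
      have hyy : rel y y' := by
        refine ⟨by rw [← hcol _ _ hy, ← hcol _ _ hy']; exact hbb, ?_⟩
        calc H.edist y y' ≤ H.edist y x + H.edist x y' := H.edist_triangle
          _ ≤ 1 + 1 := add_le_add hyx (by rw [H.edist_comm]; exact hyx')
          _ = ((2 : ℕ) : ℕ∞) := by norm_num
      rw [← e1, ← e2]
      exact hN _ _ ((hy.tail hyy).trans (hsymm _ _ hy'))
    simpa using this
  have h2 : E G U ≤ ∑ b ∈ F, E G b := by
    refine le_trans (Finset.card_le_card ?_) Finset.card_biUnion_le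
    intro p hp
    rw [Finset.mem_filter, Finset.mem_product] at hp
    rw [Finset.mem_biUnion]
    refine ⟨N p.1, Finset.mem_image.2 ⟨p.1, Finset.mem_univ _, rfl⟩, ?_⟩
    rw [Finset.mem_filter, Finset.mem_product]
    refine ⟨⟨Finset.mem_filter.2 ⟨hp.1.1, p.1, Relation.ReflTransGen.refl, by simp⟩,
      Finset.mem_filter.2 ⟨hp.1.2, p.1, Relation.ReflTransGen.refl, ?_⟩⟩, hp.2⟩
    exact SimpleGraph.edist_le_one_iff_adj_or_eq.2 (Or.inl ⟨hp.2, hp.1.1, hp.1.2⟩)
  have h3 : ∃ b ∈ F, K * b.card < E G b := by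
    by_contra hcon
    push Not at hcon
    have h4 : ∑ b ∈ F, E G b ≤ K * ∑ b ∈ F, (U ∩ b).card := by
      rw [Finset.mul_sum]
      apply Finset.sum_le_sum
      intro b hb
      obtain ⟨w, rfl⟩ := hrep b hb
      rw [Finset.inter_eq_right.2 (Finset.filter_subset _ _)]
      exact hcon _ hb
    have h5 : K * ∑ b ∈ F, (U ∩ b).card ≤ K * (U.card * (d + 1)) := Nat.mul_le_mul_left _ h1
    have h6 : K * (U.card * (d + 1)) = (d + 1) * K * U.card := by ring
    omega
  obtain ⟨b, hb, hK⟩ := h3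
  obtain ⟨w, rfl⟩ := hrep b hb
  refine ⟨N w, Finset.filter_subset _ _, hK, ?_⟩
  intro x hx y hy
  obtain ⟨_, x', hx', hxx⟩ := Finset.mem_filter.1 hx
  obtain ⟨_, y', hy', hyy⟩ := Finset.mem_filter.1 hy
  have h7 := hc x' y' ((hsymm _ _ hx').trans hy')
  calc H.edist x y ≤ H.edist x x' + (H.edist x' y' + H.edist y' y) :=
        H.edist_triangle.trans (add_le_add le_rfl H.edist_triangle)
    _ ≤ 1 + ((D : ℕ∞) + 1) := add_le_add (by rw [H.edist_comm]; exact hxx) (add_le_add h7 hyy)
    _ = ((D + 2 : ℕ) : ℕ∞) := by push_cast; ring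

/-- a random set contains `x, y` and avoids `a, b` with probability at least `1/16` -/
lemma card_event [Fintype V] (x y a b : V) (h1 : a ≠ x) (h2 : a ≠ y) (h3 : b ≠ x) (h4 : b ≠ y) :
    Fintype.card (V → Bool) ≤ 16 * (Finset.univ.filter
      (fun S : V → Bool => S x = true ∧ S y = true ∧ S a = false ∧ S b = false)).card := by
  set A := Finset.univ.filter
      (fun S : V → Bool => S x = true ∧ S y = true ∧ S a = false ∧ S b = false)
  have : (Finset.univ : Finset (V → Bool)).card ≤
      ((Finset.univ : Finset (Bool × Bool × Bool × Bool)) ×ˢ A).card := by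
    apply Finset.card_le_card_of_injOn (fun S => ((S x, S y, S a, S b),
      fun z => if z = x ∨ z = y then true else if z = a ∨ z = b then false else S z))
    · intro S _
      simp [A, h1, h2, h3, h4]
    · intro S _ S' _ h
      simp only [Prod.mk.injEq] at h
      obtain ⟨⟨e1, e2, e3, e4⟩, e5⟩ := h
      funext z
      have := congrFun e5 z
      by_cases c1 : z = x
      · rw [c1]; exact e1
      by_cases c2 : z = y
      · rw [c2]; exact e2
      by_cases c3 : z = a
      · rw [c3]; exact e3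
      by_cases c4 : z = b
      · rw [c4]; exact e4
      simpa [c1, c2, c3, c4] using this
  rw [Finset.card_product] at this
  simpa using this

lemma exists_cut [Fintype V] (P : Finset (V × V)) (p : V → V)
    (hP : ∀ e ∈ P, p e.1 ≠ e.1 ∧ p e.1 ≠ e.2 ∧ p e.2 ≠ e.1 ∧ p e.2 ≠ e.2) :
    ∃ S : V → Bool, P.card ≤ 16 * (P.filter (fun e =>
      S e.1 = true ∧ S e.2 = true ∧ S (p e.1) = false ∧ S (p e.2) = false)).card := by
  have h1 : ∑ _S : V → Bool, P.card ≤ ∑ S : V → Bool, 16 * (P.filter (fun e =>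
      S e.1 = true ∧ S e.2 = true ∧ S (p e.1) = false ∧ S (p e.2) = false)).card := by
    rw [← Finset.mul_sum]
    have h2 : ∑ S : V → Bool, (P.filter (fun e =>
        S e.1 = true ∧ S e.2 = true ∧ S (p e.1) = false ∧ S (p e.2) = false)).card =
        ∑ e ∈ P, (Finset.univ.filter (fun S : V → Bool =>
        S e.1 = true ∧ S e.2 = true ∧ S (p e.1) = false ∧ S (p e.2) = false)).card := by
      simp only [Finset.card_filter]
      exact Finset.sum_comm
    rw [h2, Finset.mul_sum, Finset.sum_const, Finset.card_univ, smul_eq_mul, mul_comm,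
      Finset.card_eq_sum_ones P, Finset.sum_mul]
    apply Finset.sum_le_sum
    intro e he
    obtain ⟨a1, a2, a3, a4⟩ := hP e he
    rw [one_mul]
    exact card_event _ _ _ _ a1 a2 a3 a4
  obtain ⟨S, _, hS⟩ := Finset.exists_le_of_sum_le Finset.univ_nonempty h1
  exact ⟨S, hS⟩

theorem extract [Fintype V] (G : SimpleGraph V) (U U' : Finset V) (hU : U' ⊆ U) {R K : ℕ}
    (hd : ∀ x ∈ U', ∀ y ∈ U', (res G U).edist x y ≤ (R : ℕ∞))
    (h : (R + 1) * (16 * K + 2) * U'.card < E G U') :
    ∃ (T U'' : Finset V) (v : V), T ⊆ U ∧ U'' ⊆ U ∧ Disjoint T U'' ∧ v ∈ T ∧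
      (∀ x ∈ T, ∃ q : G.Walk v x, q.length ≤ R ∧ ∀ y ∈ q.support, y ∈ T) ∧
      (∀ x ∈ U'', ∃ y ∈ T, G.Adj y x) ∧ K * U''.card < E G U'' := by
  obtain ⟨v, hv⟩ := nonempty_of_E (lt_of_le_of_lt (Nat.zero_le _) h)
  set H := res G U with hH
  have hreach : ∀ x ∈ U', H.Reachable v x := fun x hx =>
    SimpleGraph.reachable_of_edist_ne_top (ne_top_of_le_ne_top (by simp) (hd v hv x hx))
  have hdist : ∀ x ∈ U', H.dist v x ≤ R := by
    intro x hx
    have := hd v hv x hx
    rw [← (hreach x hx).coe_dist_eq_edist] at this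
    exact_mod_cast this
  have hpar : ∀ x, ∃ y, (x = v → y = v) ∧ (x ≠ v → H.Reachable v x →
      H.Reachable v y ∧ H.Adj y x ∧ H.dist v y + 1 = H.dist v x) := by
    intro x
    by_cases hx : x = v
    · exact ⟨v, fun _ => rfl, fun h => absurd hx h⟩
    by_cases hr : H.Reachable v x
    · obtain ⟨q, hq⟩ := hr.symm.exists_walk_length_eq_dist
      cases q with
      | nil => exact absurd rfl hx
      | @cons _ y _ ha q' =>
        refine ⟨y, fun h => absurd h hx, fun _ _ => ⟨q'.reachable.symm, ha.symm, ?_⟩⟩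
        have h1 := H.dist_le q'
        have h2 := q'.reachable.symm.dist_triangle_left x
        rw [SimpleGraph.dist_eq_one_iff_adj.2 ha.symm] at h2
        rw [SimpleGraph.Walk.length_cons, H.dist_comm] at hq
        rw [H.dist_comm] at h1
        omega
    · exact ⟨v, fun h => absurd h hx, fun _ h => absurd h hr⟩
  choose p hp0 hp using hpar
  have hadj : ∀ x ∈ U', ∀ y ∈ U', G.Adj x y → H.dist v y ≤ H.dist v x + 1 := by
    intro x hx y hy hxy
    have h2 := (hreach x hx).dist_triangle_left y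
    rwa [SimpleGraph.dist_eq_one_iff_adj.2 (show H.Adj x y from ⟨hxy, hU hx, hU hy⟩)] at h2
  set P0 := (U' ×ˢ U').filter (fun e => G.Adj e.1 e.2) with hP0
  have hj : ∃ j ≤ R, (16 * K + 2) * U'.card <
      (P0.filter (fun e => min (H.dist v e.1) (H.dist v e.2) = j)).card := by
    by_contra hcon
    push Not at hcon
    have h1 : P0.card = ∑ j ∈ Finset.range (R + 1),
        (P0.filter (fun e => min (H.dist v e.1) (H.dist v e.2) = j)).card := by
      apply Finset.card_eq_sum_card_fiberwise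
      intro e he
      rw [Finset.mem_coe, hP0, Finset.mem_filter, Finset.mem_product] at he
      have := hdist _ he.1.1
      simp only [Finset.coe_range, Set.mem_Iio]
      omega
    have h2 : ∑ j ∈ Finset.range (R + 1),
        (P0.filter (fun e => min (H.dist v e.1) (H.dist v e.2) = j)).card ≤
        ∑ _j ∈ Finset.range (R + 1), (16 * K + 2) * U'.card :=
      Finset.sum_le_sum (fun j hj => hcon j (by rw [Finset.mem_range] at hj; omega))
    rw [Finset.sum_const, Finset.card_range, smul_eq_mul, ← mul_assoc] at h2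
    have h3 : E G U' = P0.card := rfl
    omega
  obtain ⟨j, hjR, hj⟩ := hj
  set P1 := P0.filter (fun e => min (H.dist v e.1) (H.dist v e.2) = j) with hP1
  set P2 := P1.filter (fun e => p e.1 ≠ e.2 ∧ p e.2 ≠ e.1) with hP2
  have hmem : ∀ e ∈ P1, e.1 ∈ U' ∧ e.2 ∈ U' ∧ G.Adj e.1 e.2 ∧
      min (H.dist v e.1) (H.dist v e.2) = j := by
    intro e he
    rw [hP1, Finset.mem_filter, hP0, Finset.mem_filter, Finset.mem_product] at he
    exact ⟨he.1.1.1, he.1.1.2, he.1.2, he.2⟩
  have hP2c : P1.card ≤ P2.card + 2 * U'.card := by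
    have hsub : P1 ⊆ P2 ∪ (U'.image (fun x => (x, p x)) ∪ U'.image (fun x => (p x, x))) := by
      intro e he
      obtain ⟨a1, a2, _, _⟩ := hmem e he
      rw [Finset.mem_union, Finset.mem_union]
      by_cases c1 : p e.1 = e.2
      · exact Or.inr (Or.inl (Finset.mem_image.2 ⟨e.1, a1, by rw [c1]⟩))
      by_cases c2 : p e.2 = e.1
      · exact Or.inr (Or.inr (Finset.mem_image.2 ⟨e.2, a2, by rw [c2]⟩))
      exact Or.inl (Finset.mem_filter.2 ⟨he, c1, c2⟩)
    have h1 := Finset.card_le_card hsub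
    have h2 := Finset.card_union_le P2
      (U'.image (fun x => (x, p x)) ∪ U'.image (fun x => (p x, x)))
    have h3 := Finset.card_union_le (U'.image (fun x => (x, p x))) (U'.image (fun x => (p x, x)))
    have h4 : (U'.image (fun x => (x, p x))).card ≤ U'.card := Finset.card_image_le
    have h5 : (U'.image (fun x => (p x, x))).card ≤ U'.card := Finset.card_image_le
    omega
  have hself : ∀ x ∈ U', ∀ y ∈ U', G.Adj x y → p y ≠ x → p x ≠ x := by
    intro x hx y hy hxy hne he
    by_cases hxv : x = v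
    · subst hxv
      have hyx : y ≠ x := hxy.ne.symm
      obtain ⟨r1, _, r3⟩ := hp y hyx (hreach y hy)
      have h1 := hadj x hx y hy hxy
      rw [H.dist_self] at h1
      exact hne ((r1.dist_eq_zero_iff.1 (by omega)).symm)
    · obtain ⟨_, _, r3⟩ := hp x hxv (hreach x hx)
      rw [he] at r3
      omega
  obtain ⟨S, hS⟩ := exists_cut P2 p (by
    intro e he
    rw [hP2, Finset.mem_filter] at he
    obtain ⟨a1, a2, a3, _⟩ := hmem e he.1
    exact ⟨hself _ a1 _ a2 a3 he.2.2, he.2.1, he.2.2, hself _ a2 _ a1 a3.symm he.2.1⟩)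
  set U'' := U'.filter (fun x => j ≤ H.dist v x ∧ H.dist v x ≤ j + 1 ∧ S x = true ∧
    S (p x) = false) with hU''
  set T := U.filter (fun y => H.Reachable v y ∧
    (H.dist v y < j ∨ (H.dist v y = j ∧ S y = false))) with hT
  have hE : (P2.filter (fun e =>
      S e.1 = true ∧ S e.2 = true ∧ S (p e.1) = false ∧ S (p e.2) = false)).card ≤ E G U'' := by
    apply Finset.card_le_card
    intro e he
    rw [Finset.mem_filter, hP2, Finset.mem_filter] at he
    obtain ⟨a1, a2, a3, a4⟩ := hmem e he.1.1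
    have b1 := hadj _ a1 _ a2 a3
    have b2 := hadj _ a2 _ a1 a3.symm
    rw [Finset.mem_filter, Finset.mem_product, hU'', Finset.mem_filter, Finset.mem_filter]
    exact ⟨⟨⟨a1, by omega, by omega, he.2.1, he.2.2.2.1⟩,
      ⟨a2, by omega, by omega, he.2.2.1, he.2.2.2.2⟩⟩, a3⟩
  have hc'' : U''.card ≤ U'.card := Finset.card_le_card (Finset.filter_subset _ _)
  have hK : K * U''.card < E G U'' := by
    have h1 : K * U''.card ≤ K * U'.card := Nat.mul_le_mul_left _ hc''
    have h2 : (16 * K + 2) * U'.card = 16 * (K * U'.card) + 2 * U'.card := by ring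
    omega
  have hdom : ∀ x ∈ U'', p x ∈ T ∧ G.Adj (p x) x := by
    intro x hx
    rw [hU'', Finset.mem_filter] at hx
    obtain ⟨a1, a2, a3, a4, a5⟩ := hx
    have hxv : x ≠ v := by
      intro h1
      rw [hp0 x h1, ← h1, a4] at a5
      exact absurd a5 (by simp)
    obtain ⟨r1, r2, r3⟩ := hp x hxv (hreach x a1)
    refine ⟨Finset.mem_filter.2 ⟨r2.2.1, r1, ?_⟩, r2.1⟩
    by_cases h1 : H.dist v (p x) < j
    · exact Or.inl h1
    · exact Or.inr ⟨by omega, a5⟩
  have hvT : v ∈ T := by
    obtain ⟨x, hx⟩ := nonempty_of_E (lt_of_le_of_lt (Nat.zero_le _) hK)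
    have h1 := (hdom x hx).1
    rw [hT, Finset.mem_filter] at h1 ⊢
    refine ⟨hU hv, SimpleGraph.Reachable.refl _, ?_⟩
    rw [H.dist_self]
    rcases h1.2.2 with h2 | ⟨h2, h3⟩
    · left; omega
    · by_cases h4 : 0 < j
      · exact Or.inl h4
      · have h5 : v = p x := h1.2.1.dist_eq_zero_iff.1 (by omega)
        exact Or.inr ⟨by omega, by rw [h5]; exact h3⟩
  have hwalk : ∀ n, ∀ x ∈ T, H.dist v x = n →
      ∃ q : G.Walk v x, q.length ≤ n ∧ ∀ y ∈ q.support, y ∈ T := by
    intro n
    induction n with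
    | zero =>
      intro x hx h0
      have h1 : v = x := (Finset.mem_filter.1 hx).2.1.dist_eq_zero_iff.1 h0
      subst h1
      exact ⟨SimpleGraph.Walk.nil, le_rfl, by simpa using hx⟩
    | succ n ih =>
      intro x hx h0
      have hxv : x ≠ v := by
        rintro rfl
        rw [H.dist_self] at h0
        omega
      have hx' := Finset.mem_filter.1 hx
      obtain ⟨r1, r2, r3⟩ := hp x hxv hx'.2.1
      have hpT : p x ∈ T := by
        refine Finset.mem_filter.2 ⟨r2.2.1, r1, Or.inl ?_⟩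
        rcases hx'.2.2 with h1 | h1 <;> omega
      obtain ⟨q, hq1, hq2⟩ := ih (p x) hpT (by omega)
      refine ⟨q.concat r2.1, by rw [SimpleGraph.Walk.length_concat]; omega, ?_⟩
      intro y hy
      rw [SimpleGraph.Walk.support_concat] at hy
      simp only [List.mem_append, List.mem_singleton] at hy
      rcases hy with hy | hy
      · exact hq2 y hy
      · rw [hy]; exact hx
  refine ⟨T, U'', v, Finset.filter_subset _ _, (Finset.filter_subset _ _).trans hU, ?_, hvT, ?_,
    fun x hx => ⟨p x, hdom x hx⟩, hK⟩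
  · rw [Finset.disjoint_left]
    intro x hx hx'
    rw [hT, Finset.mem_filter] at hx
    rw [hU'', Finset.mem_filter] at hx'
    rcases hx.2.2 with h1 | ⟨_, h1⟩
    · omega
    · rw [hx'.2.2.2.1] at h1
      exact absurd h1 (by simp)
  · intro x hx
    obtain ⟨q, hq1, hq2⟩ := hwalk _ x hx rfl
    refine ⟨q, ?_, hq2⟩
    rcases (Finset.mem_filter.1 hx).2.2 with h1 | h1 <;> omega

end Pool.Agent.H96Z.AD
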