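import Pool.Agent.H96Z.AD.Local

set_option autoImplicit false

namespace Pool.Agent.H96Z.AD

open Finset Classical

abbrev Cls := ∀ n : ℕ, SimpleGraph (Fin n) → Prop

def Mono (C : Cls) : Prop :=
  ∀ (n m : ℕ) (H : SimpleGraph (Fin n)) (G : SimpleGraph (Fin m)) (φ : H →g G),
    Function.Injective φ → C m G → C n H

def Asd (C : Cls) (d : ℕ) (f : ℕ → ℕ) : Prop :=
  ∀ (m : ℕ) (G : SimpleGraph (Fin m)), C m G → ∀ r : ℕ, Col G d r (f r)

def Model {m k : ℕ} (G : SimpleGraph (Fin m)) (H : SimpleGraph (Fin k)) (r : ℕ)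
    (B : Fin k → Finset (Fin m)) (ctr : Fin k → Fin m) : Prop :=
  (∀ i j, i ≠ j → Disjoint (B i) (B j)) ∧ (∀ i, ctr i ∈ B i) ∧
    (∀ i, ∀ x ∈ B i, ∃ p : G.Walk (ctr i) x, p.length ≤ r ∧ ∀ y ∈ p.support, y ∈ B i) ∧
    (∀ i j, H.Adj i j → ∃ x ∈ B i, ∃ y ∈ B j, G.Adj x y)

def SM (C : Cls) (r : ℕ) : Cls := fun _ H =>
  ∃ (m : ℕ) (G : SimpleGraph (Fin m)), C m G ∧ ∃ B ctr, Model G H r B ctr

lemma Mono.le {C : Cls} (hC : Mono C) {m : ℕ} {G G' : SimpleGraph (Fin m)} (h : G' ≤ G)
    (hG : C m G) : C m G' :=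
  hC m m G' G (SimpleGraph.Hom.ofLE h) (fun _ _ h => h) hG

lemma SM_mono (C : Cls) (r : ℕ) : Mono (SM C r) := by
  rintro n k H' H φ hφ ⟨m, G, hG, B, ctr, h1, h2, h3, h4⟩
  exact ⟨m, G, hG, fun i => B (φ i), fun i => ctr (φ i),
    fun i j hij => h1 _ _ (fun h => hij (hφ h)), fun i => h2 _, fun i => h3 _,
    fun i j hij => h4 _ _ (φ.map_adj hij)⟩

lemma SM_asd {C : Cls} (hC : Mono C) {d : ℕ} {f : ℕ → ℕ} (hA : Asd C d f) (r : ℕ) :
    Asd (SM C r) d (fun s => f ((2 * r + 1) * s)) := by
  rintro k H ⟨m, G, hG, B, ctr, h1, h2, h3, h4⟩ s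
  let G' : SimpleGraph (Fin m) :=
    { Adj := fun x y => G.Adj x y ∧ ∃ i j, x ∈ B i ∧ y ∈ B j ∧ (i = j ∨ H.Adj i j)
      symm := ⟨fun x y ⟨h, i, j, a, b, c⟩ => ⟨h.symm, j, i, b, a, c.imp Eq.symm (fun h => h.symm)⟩⟩
      loopless := ⟨fun x h => G.irrefl h.1⟩ }
  obtain ⟨c, hc⟩ := hA m G' (hC.le (fun _ _ h => h.1) hG) ((2 * r + 1) * s)
  have huniq : ∀ x i j, x ∈ B i → x ∈ B j → i = j := by
    intro x i j a b
    by_contra hne
    exact Finset.disjoint_left.1 (h1 i j hne) a b
  have hin : ∀ i, ∀ x ∈ B i, G'.edist (ctr i) x ≤ r := by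
    intro i x hx
    obtain ⟨p, hp1, hp2⟩ := h3 i x hx
    have key : ∀ (a b : Fin m) (q : G.Walk a b), (∀ y ∈ q.support, y ∈ B i) →
        G'.edist a b ≤ q.length := by
      intro a b q
      induction q with
      | nil => intro _; simp
      | @cons a a' b ha q ih =>
        intro hq
        have e1 : G'.edist a a' ≤ 1 := SimpleGraph.edist_le_one_iff_adj_or_eq.2
          (Or.inl ⟨ha, i, i, hq a (by simp), hq a' (by simp), Or.inl rfl⟩)
        have e2 := ih (fun y hy => hq y (by simp [hy]))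
        calc G'.edist a b ≤ G'.edist a a' + G'.edist a' b := G'.edist_triangle
          _ ≤ 1 + q.length := add_le_add e1 e2
          _ = _ := by rw [SimpleGraph.Walk.length_cons]; push_cast; ring
    exact (key _ _ p hp2).trans (by exact_mod_cast hp1)
  have hup : ∀ (a b : Fin k) (q : H.Walk a b),
      G'.edist (ctr a) (ctr b) ≤ (((2 * r + 1) * q.length : ℕ) : ℕ∞) := by
    intro a b q
    induction q with
    | nil => simp
    | @cons a a' b ha q ih =>
      obtain ⟨x, hx, y, hy, hxy⟩ := h4 a a' ha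
      have e1 : G'.edist x y ≤ 1 := SimpleGraph.edist_le_one_iff_adj_or_eq.2
        (Or.inl ⟨hxy, a, a', hx, hy, Or.inr ha⟩)
      have e2 := hin a x hx
      have e3 := hin a' y hy
      rw [G'.edist_comm] at e3
      calc G'.edist (ctr a) (ctr b) ≤ G'.edist (ctr a) x + (G'.edist x y + (G'.edist y (ctr a') +
            G'.edist (ctr a') (ctr b))) :=
            G'.edist_triangle.trans (add_le_add le_rfl (G'.edist_triangle.trans
              (add_le_add le_rfl G'.edist_triangle)))
        _ ≤ r + (1 + (r + (((2 * r + 1) * q.length : ℕ) : ℕ∞))) :=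
            add_le_add e2 (add_le_add e1 (add_le_add e3 ih))
        _ = _ := by rw [SimpleGraph.Walk.length_cons]; push_cast; ring
  have hdown : ∀ (x y : Fin m) (q : G'.Walk x y) (a b : Fin k), x ∈ B a → y ∈ B b →
      H.edist a b ≤ q.length := by
    intro x y q
    induction q with
    | nil =>
      intro a b ha hb
      rw [huniq _ a b ha hb]
      simp
    | @cons x x' y hx q ih =>
      intro a b ha hb
      obtain ⟨_, i, j, a1, a2, a3⟩ := hx
      have hi := huniq _ _ _ a1 ha
      subst hi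
      have e1 : H.edist i j ≤ 1 := SimpleGraph.edist_le_one_iff_adj_or_eq.2 a3.symm
      calc H.edist i b ≤ H.edist i j + H.edist j b := H.edist_triangle
        _ ≤ 1 + q.length := add_le_add e1 (ih j b a2 hb)
        _ = _ := by rw [SimpleGraph.Walk.length_cons]; push_cast; ring
  refine ⟨fun i => c (ctr i), fun u v huv => ?_⟩
  have h5 : Relation.ReflTransGen (fun a b => c a = c b ∧
      G'.edist a b ≤ (((2 * r + 1) * s : ℕ) : ℕ∞)) (ctr u) (ctr v) := by
    clear hc
    induction huv with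
    | refl => exact Relation.ReflTransGen.refl
    | @tail a b _ hab ih =>
    refine ih.tail ?_
    obtain ⟨e1, e2⟩ := hab
    refine ⟨e1, ?_⟩
    obtain ⟨q, hq⟩ := SimpleGraph.exists_walk_of_edist_ne_top
      (ne_top_of_le_ne_top (by simp) e2)
    rw [← hq] at e2
    refine (hup a b q).trans ?_
    have : q.length ≤ s := by exact_mod_cast e2
    exact_mod_cast Nat.mul_le_mul_left _ this
  have h6 := hc _ _ h5
  obtain ⟨q, hq⟩ := SimpleGraph.exists_walk_of_edist_ne_top (ne_top_of_le_ne_top (by simp) h6)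
  exact (hdown _ _ q u v (h2 u) (h2 v)).trans (hq ▸ h6)

lemma cliques {C : Cls} (hC : Mono C) {d : ℕ} {f : ℕ → ℕ} (hA : Asd C d f) (t : ℕ) :
    ∃ K, ∀ (m : ℕ) (G : SimpleGraph (Fin m)), C m G → ∀ U : Finset (Fin m),
      K * U.card < E G U → ∃ B ctr, Model G (⊤ : SimpleGraph (Fin t)) (f 2 + 2) B ctr ∧
        ∀ i, B i ⊆ U := by
  induction t with
  | zero =>
    exact ⟨0, fun m G _ U _ => ⟨Fin.elim0, Fin.elim0,
      ⟨fun i => i.elim0, fun i => i.elim0, fun i => i.elim0, fun i => i.elim0⟩, fun i => i.elim0⟩⟩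
  | succ t ih =>
    obtain ⟨K, hK⟩ := ih
    refine ⟨(d + 1) * ((f 2 + 2 + 1) * (16 * K + 2)), fun m G hG U hU => ?_⟩
    obtain ⟨U', hU', h1, h2⟩ := local_dense G U
      (hA m (res G U) (hC.le (fun _ _ h => h.1) hG) 2) hU
    obtain ⟨T, U'', v, a1, a2, a3, a4, a5, a6, a7⟩ := extract G U U' hU' h2 h1
    obtain ⟨B, ctr, ⟨b1, b2, b3, b4⟩, b5⟩ := hK m G hG U'' a7
    refine ⟨Fin.cons T B, Fin.cons v ctr, ⟨?_, ?_, ?_, ?_⟩, ?_⟩
    · intro i j
      refine Fin.cases ?_ (fun i => ?_) i <;> refine Fin.cases ?_ (fun j => ?_) j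
      · intro h; exact absurd rfl h
      · intro _
        simp only [Fin.cons_zero, Fin.cons_succ]
        exact a3.mono_right (b5 j)
      · intro _
        simp only [Fin.cons_zero, Fin.cons_succ]
        exact (a3.mono_right (b5 i)).symm
      · intro h
        simp only [Fin.cons_succ]
        exact b1 i j (fun h' => h (by rw [h']))
    · intro i
      refine Fin.cases ?_ (fun i => ?_) i
      · simpa using a4
      · simpa using b2 i
    · intro i
      refine Fin.cases ?_ (fun i => ?_) i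
      · exact a5
      · exact b3 i
    · intro i j
      refine Fin.cases ?_ (fun i => ?_) i <;> refine Fin.cases ?_ (fun j => ?_) j
      · intro h; exact absurd rfl h.ne
      · intro _
        simp only [Fin.cons_zero, Fin.cons_succ]
        obtain ⟨y, hy, hy'⟩ := a6 _ (b5 j (b2 j))
        exact ⟨y, hy, _, b2 j, hy'⟩
      · intro _
        simp only [Fin.cons_zero, Fin.cons_succ]
        obtain ⟨y, hy, hy'⟩ := a6 _ (b5 i (b2 i))
        exact ⟨_, b2 i, y, hy, hy'.symm⟩
      · intro h
        simp only [Fin.cons_succ]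
        exact b4 i j (fun h' => h.ne (by rw [h']))
    · intro i
      refine Fin.cases ?_ (fun i => ?_) i
      · simpa using a1
      · simpa using (b5 i).trans a2

/-- flip one coordinate -/
def flp {M : ℕ} (x : Fin M → Bool) (i : Fin M) : Fin M → Bool := Function.update x i (!x i)

lemma flp_flp {M : ℕ} (x : Fin M → Bool) (i : Fin M) : flp (flp x i) i = x := by
  funext j
  by_cases h : j = i
  · subst h; simp [flp]
  · simp [flp, h]

lemma flp_self {M : ℕ} (x : Fin M → Bool) (i : Fin M) : flp x i i = !x i := by simp [flp]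

lemma flp_ne {M : ℕ} (x : Fin M → Bool) {i j : Fin M} (h : j ≠ i) : flp x i j = x j := by
  simp [flp, h]

/-- the hypercube, transported along `e` -/
def cubeG {M n : ℕ} (e : Fin n ≃ (Fin M → Bool)) : SimpleGraph (Fin n) where
  Adj a b := ∃ i, e b = flp (e a) i
  symm := ⟨fun a b ⟨i, h⟩ => ⟨i, by rw [h, flp_flp]⟩⟩
  loopless := ⟨fun a ⟨i, h⟩ => by
    have := congrFun h i
    rw [flp_self] at this
    cases h : e a i <;> simp [h] at this⟩

lemma not_all {C : Cls} {d : ℕ} {f : ℕ → ℕ} (hA : Asd C d f)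
    (hall : ∀ n (H : SimpleGraph (Fin n)), C n H) : False := by
  set R := f 2 + 2 with hR
  set M := (d + 1) * (2 * R) + 1 with hM
  set n := Fintype.card (Fin M → Bool) with hn
  let e : Fin n ≃ (Fin M → Bool) := (Fintype.equivFin (Fin M → Bool)).symm
  set Q := cubeG e with hQ
  have hnpos : 0 < n := Fintype.card_pos
  have h1 : M * n ≤ E Q Finset.univ := by
    have : ((Finset.univ : Finset (Fin M)) ×ˢ (Finset.univ : Finset (Fin n))).card ≤
        E Q Finset.univ := by
      apply Finset.card_le_card_of_injOn (fun p => (p.2, e.symm (flp (e p.2) p.1)))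
      · intro p _
        rw [Finset.mem_coe, Finset.mem_filter]
        exact ⟨by simp, p.1, by simp⟩
      · rintro ⟨i, a⟩ _ ⟨j, b⟩ _ h
        simp only [Prod.mk.injEq, EmbeddingLike.apply_eq_iff_eq] at h
        obtain ⟨rfl, h⟩ := h
        by_contra hne
        have hij : i ≠ j := fun h' => hne (by rw [h'])
        have := congrFun h i
        rw [flp_self, flp_ne _ hij] at this
        cases h : e a i <;> simp [h] at this
    simpa using this
  have h2 : (d + 1) * (2 * R) * (Finset.univ : Finset (Fin n)).card < E Q Finset.univ := by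
    rw [Finset.card_univ, Fintype.card_fin]
    have : M * n = (d + 1) * (2 * R) * n + n := by rw [hM]; ring
    omega
  obtain ⟨U, _, h3, h4⟩ := local_dense Q Finset.univ (hA n _ (hall n _) 2) h2
  obtain ⟨v, hv⟩ := nonempty_of_E (lt_of_le_of_lt (Nat.zero_le _) h3)
  let D : Fin n → Finset (Fin M) := fun x => Finset.univ.filter (fun i => e x i ≠ e v i)
  have hD : ∀ x ∈ U, (D x).card ≤ R := by
    intro x hx
    have h5 := h4 x hx v hv
    obtain ⟨q, hq⟩ := SimpleGraph.exists_walk_of_edist_ne_top (ne_top_of_le_ne_top (by simp) h5)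
    have key : ∀ (a b : Fin n) (q : (res Q Finset.univ).Walk a b), b = v → (D a).card ≤ q.length := by
      intro a b q
      induction q with
      | nil => rintro rfl; simp [D]
      | @cons a a' b ha q ih =>
        intro hb
        obtain ⟨i, hi⟩ := ha.1
        have h6 : D a ⊆ insert i (D a') := by
          intro j hj
          rw [Finset.mem_insert]
          by_cases hji : j = i
          · exact Or.inl hji
          · right
            simp only [D, Finset.mem_filter, Finset.mem_univ, true_and] at hj ⊢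
            rw [hi, flp_ne _ hji]; exact hj
        have h7 := Finset.card_le_card h6
        have h8 := Finset.card_insert_le i (D a')
        have h9 := ih hb
        rw [SimpleGraph.Walk.length_cons]
        omega
    have h6 := key _ _ q rfl
    rw [← hq] at h5
    have h7 : q.length ≤ f 2 + 2 := by exact_mod_cast h5
    omega
  let A : Finset (Fin n × Fin n) :=
    U.biUnion (fun x => (D x).image (fun i => (x, e.symm (flp (e x) i))))
  have hA1 : A.card ≤ U.card * R := by
    refine Finset.card_biUnion_le.trans ?_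
    refine (Finset.sum_le_card_nsmul _ _ R ?_).trans (by simp)
    intro x hx
    exact Finset.card_image_le.trans (hD x hx)
  have h5 : E Q U ≤ (A ∪ A.image Prod.swap).card := by
    apply Finset.card_le_card
    rintro ⟨x, y⟩ hp
    rw [Finset.mem_filter, Finset.mem_product] at hp
    obtain ⟨⟨hx, hy⟩, i, hi⟩ := hp
    simp only at hx hy hi
    rw [Finset.mem_union]
    by_cases hc : e x i = e v i
    · right
      refine Finset.mem_image.2 ⟨(y, x), Finset.mem_biUnion.2 ⟨y, hy,
        Finset.mem_image.2 ⟨i, ?_, ?_⟩⟩, rfl⟩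
      · simp only [D, Finset.mem_filter, Finset.mem_univ, true_and]
        rw [hi, flp_self, hc]
        cases e v i <;> simp
      · rw [hi, flp_flp, Equiv.symm_apply_apply]
    · left
      refine Finset.mem_biUnion.2 ⟨x, hx, Finset.mem_image.2 ⟨i, ?_, ?_⟩⟩
      · simp only [D, Finset.mem_filter, Finset.mem_univ, true_and]
        exact hc
      · rw [← hi, Equiv.symm_apply_apply]
  have h6 := Finset.card_union_le A (A.image Prod.swap)
  have h7 : (A.image Prod.swap).card ≤ A.card := Finset.card_image_le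
  have h8 : 2 * R * U.card = U.card * R + U.card * R := by ring
  omega

theorem sparse {C : Cls} (hC : Mono C) {d : ℕ} {f : ℕ → ℕ} (hA : Asd C d f) :
    ∃ g : ℕ, ∀ (m : ℕ) (G : SimpleGraph (Fin m)), C m G → G.edgeSet.ncard ≤ g * m := by
  by_contra hcon
  push Not at hcon
  apply not_all (SM_asd hC hA (f 2 + 2))
  intro t H
  apply (SM_mono C (f 2 + 2)).le (G := ⊤) le_top
  obtain ⟨K, hK⟩ := cliques hC hA t
  obtain ⟨m, G, hG, hm⟩ := hcon K
  have h1 : G.edgeSet.ncard ≤ E G Finset.univ := by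
    have h2 : G.edgeSet ⊆ (fun p : Fin m × Fin m => s(p.1, p.2)) ''
        ↑((Finset.univ ×ˢ Finset.univ).filter (fun p : Fin m × Fin m => G.Adj p.1 p.2)) := by
      intro z hz
      induction z using Sym2.ind with
      | h a b => exact ⟨(a, b), by simpa using hz, rfl⟩
    refine (Set.ncard_le_ncard h2 (Set.toFinite _)).trans ?_
    refine (Set.ncard_image_le (Set.toFinite _)).trans ?_
    rw [Set.ncard_coe_finset]
    rfl
  obtain ⟨B, ctr, h3, _⟩ := hK m G hG Finset.univ (by
    rw [Finset.card_univ, Fintype.card_fin]; omega)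
  exact ⟨m, G, hG, B, ctr, h3⟩

theorem main (C : Cls) (hC : Mono C) (d : ℕ) (f : ℕ → ℕ) (hA : Asd C d f) :
    ∃ g : ℕ → ℕ, ∀ (m : ℕ) (G : SimpleGraph (Fin m)), C m G →
      ∀ (r k : ℕ) (H : SimpleGraph (Fin k)), (∃ B ctr, Model G H r B ctr) →
      H.edgeSet.ncard ≤ g r * k := by
  choose g hg using fun r => sparse (SM_mono C r) (SM_asd hC hA r)
  exact ⟨g, fun m G hG r k H h => hg r k H ⟨m, G, hG, h⟩⟩

end Pool.Agent.H96Z.AD
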